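import Mathlib

set_option autoImplicit false

/-!
Finite approximation of bidual data by points of the space (a form of local reflexivity),
proved by Hahn-Banach separation in a finite power of the space.
-/

namespace Pool.Agent.MP_bec4cd_an

section Approx

variable {X : Type*} [NormedAddCommGroup X] [NormedSpace ℝ X]

/-- A vector almost norming a functional, with prescribed norm bound. -/
theorem exists_vec_norming (g : X →L[ℝ] ℝ) {m τ : ℝ} (hm : 0 ≤ m) (hτ : 0 < τ) :
    ∃ v : X, ‖v‖ < m + τ ∧ ‖g‖ * m ≤ g v := by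
  rcases eq_or_ne g 0 with rfl | hg
  · exact ⟨0, by simp; linarith, by simp⟩
  · have hgpos : 0 < ‖g‖ := norm_pos_iff.mpr hg
    have hmt : 0 < m + τ := by linarith
    have h1 : ‖g‖ * (m / (m + τ)) < ‖g‖ := by
      have : m / (m + τ) < 1 := by
        rw [div_lt_one hmt]; linarith
      nlinarith
    obtain ⟨z, hz1, hz2⟩ := ContinuousLinearMap.exists_lt_apply_of_lt_opNorm g h1
    rcases le_total 0 (g z) with h0 | h0
    · refine ⟨(m + τ) • z, ?_, ?_⟩
      · rw [norm_smul, Real.norm_of_nonneg hmt.le]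
        nlinarith [norm_nonneg z]
      · rw [Real.norm_of_nonneg h0] at hz2
        have : ‖g‖ * m = (m + τ) * (‖g‖ * (m / (m + τ))) := by
          field_simp
        rw [this]
        simp only [map_smul, smul_eq_mul]
        exact mul_le_mul_of_nonneg_left hz2.le hmt.le
    · refine ⟨(m + τ) • (-z), ?_, ?_⟩
      · rw [norm_smul, Real.norm_of_nonneg hmt.le, norm_neg]
        nlinarith [norm_nonneg z]
      · rw [Real.norm_of_nonpos h0] at hz2
        have : ‖g‖ * m = (m + τ) * (‖g‖ * (m / (m + τ))) := by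
          field_simp
        rw [this]
        simp only [map_smul, smul_eq_mul, map_neg]
        exact mul_le_mul_of_nonneg_left hz2.le hmt.le

theorem exists_approx_aux {E : Type*} [NormedAddCommGroup E] [NormedSpace ℝ E]
    {ι : Type*} [Fintype ι] [DecidableEq ι]
    (x : ι → X) (L : ι → E →L[ℝ] X) (m : ι → ℝ) (Ξ : (E →L[ℝ] ℝ) →L[ℝ] ℝ)
    (H : ∀ i, ∀ g : X →L[ℝ] ℝ, ‖g‖ ≤ 1 → g (x i) + Ξ (g.comp (L i)) ≤ m i)
    {τ : ℝ} (hτ : 0 < τ) : ∃ y : E, ∀ i, ‖x i + L i y‖ < m i + τ := by
  by_contra hcon
  push Not at hcon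
  have hm : ∀ i, 0 ≤ m i := fun i => by
    have := H i 0 (by simp)
    simpa using this
  -- the open box
  set O : Set (ι → X) := {v | ∀ i, ‖v i‖ < m i + τ} with hO
  set A : Set (ι → X) := Set.range (fun y : E => fun i => x i + L i y) with hA
  have hOopen : IsOpen O := by
    have : O = ⋂ i, {v : ι → X | ‖v i‖ < m i + τ} := by
      ext v; simp [hO]
    rw [this]
    refine isOpen_iInter_of_finite fun i => ?_
    exact isOpen_lt ((continuous_apply i).norm) continuous_const
  have hOconv : Convex ℝ O := by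
    intro v hv w hw a b ha hb hab i
    have h1 := hv i
    have h2 := hw i
    have h3 : ‖a • v i + b • w i‖ ≤ a * ‖v i‖ + b * ‖w i‖ := by
      refine (norm_add_le _ _).trans ?_
      rw [norm_smul, norm_smul, Real.norm_of_nonneg ha, Real.norm_of_nonneg hb]
    have h4 : a * ‖v i‖ + b * ‖w i‖ < m i + τ := by
      rcases eq_or_lt_of_le ha with h0 | h0
      · have : b = 1 := by rw [← h0] at hab; linarith
        rw [← h0, this]; linarith
      · have e : m i + τ = a * (m i + τ) + b * (m i + τ) := by
          rw [← add_mul, hab, one_mul]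
        rw [e]
        have := mul_lt_mul_of_pos_left h1 h0
        have := mul_le_mul_of_nonneg_left h2.le hb
        linarith
    exact lt_of_le_of_lt h3 h4
  have hAconv : Convex ℝ A := by
    rintro _ ⟨y, rfl⟩ _ ⟨z, rfl⟩ a b ha hb hab
    refine ⟨a • y + b • z, ?_⟩
    funext i
    simp only [map_add, map_smul, Pi.add_apply, Pi.smul_apply, smul_add]
    have : x i = a • x i + b • x i := by rw [← add_smul, hab, one_smul]
    nth_rewrite 1 [this]
    abel
  have hdisj : Disjoint O A := by
    rw [Set.disjoint_left]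
    rintro v hv ⟨y, rfl⟩
    obtain ⟨i, hi⟩ := hcon y
    exact absurd (hv i) (not_lt.mpr hi)
  obtain ⟨f, u, hfO, hfA⟩ := geometric_hahn_banach_open hOconv hOopen hAconv hdisj
  -- decompose f
  set g : ι → (X →L[ℝ] ℝ) := fun i => f.comp (ContinuousLinearMap.single ℝ (fun _ : ι => X) i) with hg
  have hfsum : ∀ v : ι → X, f v = ∑ i, g i (v i) := by
    intro v
    have : v = ∑ i, Pi.single i (v i) := by
      rw [Finset.univ_sum_single]
    conv_lhs => rw [this]
    rw [map_sum]
    rfl
  -- the linear part vanishes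
  set T : E →L[ℝ] ℝ := ∑ i, (g i).comp (L i) with hT
  have hTapp : ∀ y, T y = ∑ i, g i (L i y) := by
    intro y
    simp [hT]
  have hA2 : ∀ y : E, u ≤ (∑ i, g i (x i)) + T y := by
    intro y
    have := hfA _ ⟨y, rfl⟩
    rw [hfsum] at this
    simp only [map_add, Finset.sum_add_distrib] at this
    rw [hTapp]
    exact this
  have hT0 : T = 0 := by
    ext y
    simp only [zero_apply]
    by_contra hne
    set c := (∑ i, g i (x i)) with hc
    have h1 := hA2 (((u - c - 1) / T y) • y)
    rw [map_smul, smul_eq_mul, div_mul_cancel₀ _ hne] at h1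
    linarith
  have hsum0 : ∑ i, Ξ ((g i).comp (L i)) = 0 := by
    rw [← map_sum, ← hT, hT0, map_zero]
  have hle : ∀ i, g i (x i) + Ξ ((g i).comp (L i)) ≤ ‖g i‖ * m i := by
    intro i
    rcases eq_or_ne (g i) 0 with h0 | h0
    · rw [h0]; simp
    · have hpos : 0 < ‖g i‖ := norm_pos_iff.mpr h0
      have h1 := H i (‖g i‖⁻¹ • g i) (by
        rw [norm_smul, norm_inv, norm_norm, inv_mul_cancel₀ hpos.ne'])
      have h2 : (‖g i‖⁻¹ • g i).comp (L i) = ‖g i‖⁻¹ • ((g i).comp (L i)) := by
        ext y; simp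
      rw [h2, map_smul] at h1
      simp only [smul_apply, smul_eq_mul] at h1
      rw [← mul_add] at h1
      have h3 := mul_le_mul_of_nonneg_left h1 hpos.le
      rw [← mul_assoc, mul_inv_cancel₀ hpos.ne', one_mul] at h3
      exact h3
  have hu : u ≤ ∑ i, ‖g i‖ * m i := by
    have h1 := hA2 0
    rw [map_zero, add_zero] at h1
    calc u ≤ ∑ i, g i (x i) := h1
      _ = ∑ i, (g i (x i) + Ξ ((g i).comp (L i))) := by
          rw [Finset.sum_add_distrib, hsum0, add_zero]
      _ ≤ _ := Finset.sum_le_sum fun i _ => hle i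
  choose v hv1 hv2 using fun i => exists_vec_norming (g i) (hm i) hτ
  have h1 := hfO v (fun i => hv1 i)
  rw [hfsum] at h1
  have h2 : ∑ i, ‖g i‖ * m i ≤ ∑ i, g i (v i) := Finset.sum_le_sum fun i _ => hv2 i
  linarith

/-- The finite approximation principle for two bidual elements: finitely many norms of
combinations and finitely many functionals are approximated simultaneously. -/
theorem exists_approx [Nontrivial X]
    (a b : (X →L[ℝ] ℝ) →L[ℝ] ℝ) {ι κ : Type*} [Fintype ι] [Fintype κ]
    [DecidableEq ι] [DecidableEq κ]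
    (x : ι → X) (u v : ι → ℝ) (h : κ → X →L[ℝ] ℝ) {τ : ℝ} (hτ : 0 < τ) :
    ∃ y z : X,
      (∀ i, ‖x i + u i • y + v i • z‖ <
        ‖NormedSpace.inclusionInDoubleDual ℝ X (x i) + u i • a + v i • b‖ + τ) ∧
      (∀ j, |h j y - a (h j)| < τ ∧ |h j z - b (h j)| < τ) := by
  obtain ⟨e, he⟩ : ∃ e : X, ‖e‖ = 1 := exists_norm_eq X zero_le_one
  set inl' : X →L[ℝ] X × X := ContinuousLinearMap.inl ℝ X X with hinl
  set inr' : X →L[ℝ] X × X := ContinuousLinearMap.inr ℝ X X with hinr
  set fst' : X × X →L[ℝ] X := ContinuousLinearMap.fst ℝ X X with hfst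
  set snd' : X × X →L[ℝ] X := ContinuousLinearMap.snd ℝ X X with hsnd
  -- the functional on the dual of `X × X`
  set Ξ : ((X × X) →L[ℝ] ℝ) →L[ℝ] ℝ :=
    a.comp ((ContinuousLinearMap.compL ℝ X (X × X) ℝ).flip inl') +
    b.comp ((ContinuousLinearMap.compL ℝ X (X × X) ℝ).flip inr') with hΞ
  have hΞapp : ∀ φ : (X × X) →L[ℝ] ℝ, Ξ φ = a (φ.comp inl') + b (φ.comp inr') := by
    intro φ
    simp [hΞ, ContinuousLinearMap.compL_apply]
  set xx : ι ⊕ (κ ⊕ κ) → X := Sum.elim x (Sum.elim (fun j => (-(a (h j))) • e)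
    (fun j => (-(b (h j))) • e)) with hxx
  set LL : ι ⊕ (κ ⊕ κ) → (X × X) →L[ℝ] X := Sum.elim (fun i => u i • fst' + v i • snd')
    (Sum.elim (fun j => ((h j).comp fst').smulRight e)
      (fun j => ((h j).comp snd').smulRight e)) with hLL
  set mm : ι ⊕ (κ ⊕ κ) → ℝ := Sum.elim
    (fun i => ‖NormedSpace.inclusionInDoubleDual ℝ X (x i) + u i • a + v i • b‖)
    (fun _ => 0) with hmm
  obtain ⟨y, hy⟩ := exists_approx_aux xx LL mm Ξ (by
    rintro (i | j | j) g hg
    · simp only [hxx, hLL, hmm, Sum.elim_inl]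
      rw [hΞapp]
      have e1 : (g.comp (u i • fst' + v i • snd')).comp inl' = u i • g := by
        ext z; simp [hinl, hfst, hsnd]
      have e2 : (g.comp (u i • fst' + v i • snd')).comp inr' = v i • g := by
        ext z; simp [hinr, hfst, hsnd]
      rw [e1, e2, map_smul, map_smul]
      have h1 : g (x i) + (u i • a g + v i • b g) =
          (NormedSpace.inclusionInDoubleDual ℝ X (x i) + u i • a + v i • b) g := by
        simp [NormedSpace.dual_def, add_assoc]
      rw [h1]
      refine (le_abs_self _).trans ?_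
      rw [← Real.norm_eq_abs]
      refine (ContinuousLinearMap.le_opNorm _ g).trans ?_
      exact mul_le_of_le_one_right (norm_nonneg _) hg
    · simp only [hxx, hLL, hmm, Sum.elim_inr, Sum.elim_inl]
      rw [hΞapp]
      have e1 : (g.comp (((h j).comp fst').smulRight e)).comp inl' = (g e) • h j := by
        ext z; simp [hinl, hfst]; ring
      have e2 : (g.comp (((h j).comp fst').smulRight e)).comp inr' = 0 := by
        ext z; simp [hinr, hfst]
      rw [e1, e2, map_smul, map_zero]
      simp only [map_smul, smul_eq_mul]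
      linarith
    · simp only [hxx, hLL, hmm, Sum.elim_inr]
      rw [hΞapp]
      have e1 : (g.comp (((h j).comp snd').smulRight e)).comp inl' = 0 := by
        ext z; simp [hinl, hsnd]
      have e2 : (g.comp (((h j).comp snd').smulRight e)).comp inr' = (g e) • h j := by
        ext z; simp [hinr, hsnd]; ring
      rw [e1, e2, map_smul, map_zero]
      simp only [map_smul, smul_eq_mul]
      linarith) hτ
  refine ⟨y.1, y.2, ?_, ?_⟩
  · intro i
    have h1 := hy (Sum.inl i)
    simp only [hxx, hLL, hmm, Sum.elim_inl] at h1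
    simpa [hfst, hsnd, add_assoc] using h1
  · intro j
    constructor
    · have h1 := hy (Sum.inr (Sum.inl j))
      simp only [hxx, hLL, hmm, Sum.elim_inr, Sum.elim_inl] at h1
      simp only [ContinuousLinearMap.smulRight_apply, ContinuousLinearMap.comp_apply, hfst,
        ContinuousLinearMap.coe_fst', zero_add] at h1
      rw [← add_smul, norm_smul, he, mul_one, Real.norm_eq_abs] at h1
      rwa [show h j y.1 - a (h j) = -a (h j) + h j y.1 by ring]
    · have h1 := hy (Sum.inr (Sum.inr j))
      simp only [hxx, hLL, hmm, Sum.elim_inr] at h1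
      simp only [ContinuousLinearMap.smulRight_apply, ContinuousLinearMap.comp_apply, hsnd,
        ContinuousLinearMap.coe_snd', zero_add] at h1
      rw [← add_smul, norm_smul, he, mul_one, Real.norm_eq_abs] at h1
      rwa [show h j y.2 - b (h j) = -b (h j) + h j y.2 by ring]

end Approx

end Pool.Agent.MP_bec4cd_an
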