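import Pool.Agent.Lib.MP_bec4cd_an.Approx

set_option autoImplicit false

/-!
The bidual of a real normed space as an opaque normed space, with the canonical embedding, the
evaluation pairing and the finite approximation principle.
-/

namespace Pool.Agent.MP_bec4cd_an

/-- The bidual of `X`. -/
def BB (X : Type*) [NormedAddCommGroup X] [NormedSpace ℝ X] : Type _ :=
  (X →L[ℝ] ℝ) →L[ℝ] ℝ

section Bidual

variable {X : Type*} [NormedAddCommGroup X] [NormedSpace ℝ X]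

noncomputable instance instNAG : NormedAddCommGroup (BB X) :=
  inferInstanceAs (NormedAddCommGroup ((X →L[ℝ] ℝ) →L[ℝ] ℝ))

noncomputable instance instNS : NormedSpace ℝ (BB X) :=
  inferInstanceAs (NormedSpace ℝ ((X →L[ℝ] ℝ) →L[ℝ] ℝ))

/-- Evaluation of a bidual element at a functional. -/
noncomputable def ev (ξ : BB X) : (X →L[ℝ] ℝ) →ₗ[ℝ] ℝ :=
  ContinuousLinearMap.toLinearMap (show (X →L[ℝ] ℝ) →L[ℝ] ℝ from ξ)

/-- The canonical embedding. -/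
noncomputable def JJ : X →ₗ[ℝ] BB X :=
  show X →ₗ[ℝ] ((X →L[ℝ] ℝ) →L[ℝ] ℝ) from
    ContinuousLinearMap.toLinearMap (NormedSpace.inclusionInDoubleDual ℝ X)

theorem norm_JJ (x : X) : ‖JJ x‖ = ‖x‖ :=
  (NormedSpace.inclusionInDoubleDualLi ℝ (E := X)).norm_map x

theorem ev_JJ (x : X) (f : X →L[ℝ] ℝ) : ev (JJ x) f = f x := rfl

theorem ev_add (ξ ζ : BB X) (f : X →L[ℝ] ℝ) : ev (ξ + ζ) f = ev ξ f + ev ζ f := rfl

theorem ev_sub (ξ ζ : BB X) (f : X →L[ℝ] ℝ) : ev (ξ - ζ) f = ev ξ f - ev ζ f := rfl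

theorem ev_smul (c : ℝ) (ξ : BB X) (f : X →L[ℝ] ℝ) : ev (c • ξ) f = c * ev ξ f := rfl

theorem ev_zero (f : X →L[ℝ] ℝ) : ev (0 : BB X) f = 0 := rfl

theorem ev_le (ξ : BB X) (f : X →L[ℝ] ℝ) : |ev ξ f| ≤ ‖ξ‖ * ‖f‖ :=
  ContinuousLinearMap.le_opNorm (show (X →L[ℝ] ℝ) →L[ℝ] ℝ from ξ) f

theorem ev_le_norm (ξ : BB X) {f : X →L[ℝ] ℝ} (hf : ‖f‖ ≤ 1) : ev ξ f ≤ ‖ξ‖ := by
  have h1 := ev_le ξ f
  have h2 := mul_le_mul_of_nonneg_left hf (norm_nonneg ξ)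
  have h3 := le_abs_self (ev ξ f)
  linarith

theorem exists_norming (ξ : BB X) {τ : ℝ} (hτ : 0 < τ) :
    ∃ f : X →L[ℝ] ℝ, ‖f‖ ≤ 1 ∧ ‖ξ‖ - τ < ev ξ f := by
  obtain ⟨f, hf1, hf2⟩ := ContinuousLinearMap.exists_lt_apply_of_lt_opNorm
    (show (X →L[ℝ] ℝ) →L[ℝ] ℝ from ξ) (r := ‖ξ‖ - τ) (show ‖ξ‖ - τ < ‖ξ‖ by linarith)
  change ‖ξ‖ - τ < |ev ξ f| at hf2
  rcases le_total 0 (ev ξ f) with h | h
  · rw [abs_of_nonneg h] at hf2
    exact ⟨f, hf1.le, hf2⟩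
  · rw [abs_of_nonpos h] at hf2
    exact ⟨-f, by rw [norm_neg]; exact hf1.le, by rw [map_neg]; exact hf2⟩

/-- The finite approximation principle. -/
theorem exists_approxB [Nontrivial X] (a b : BB X) {ι κ : Type*} [Fintype ι] [Fintype κ]
    [DecidableEq ι] [DecidableEq κ]
    (x : ι → X) (u v : ι → ℝ) (h : κ → X →L[ℝ] ℝ) {τ : ℝ} (hτ : 0 < τ) :
    ∃ y z : X,
      (∀ i, ‖x i + u i • y + v i • z‖ < ‖JJ (x i) + u i • a + v i • b‖ + τ) ∧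
      (∀ j, |h j y - ev a (h j)| < τ ∧ |h j z - ev b (h j)| < τ) :=
  exists_approx (show (X →L[ℝ] ℝ) →L[ℝ] ℝ from a) (show (X →L[ℝ] ℝ) →L[ℝ] ℝ from b) x u v h hτ

/-- If a closed subspace of the dual is proper, some nonzero bidual element vanishes on it. -/
theorem exists_vanish {V : Submodule ℝ (X →L[ℝ] ℝ)} (hV : IsClosed (V : Set (X →L[ℝ] ℝ)))
    {f : X →L[ℝ] ℝ} (hf : f ∉ V) : ∃ ξ : BB X, ξ ≠ 0 ∧ ∀ h ∈ V, ev ξ h = 0 := by
  obtain ⟨ξ, u, h1, h2⟩ := geometric_hahn_banach_point_closed V.convex hV hf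
  have hξV : ∀ h ∈ V, ξ h = 0 := by
    intro h hh
    by_contra hne
    have h3 := h2 (((u - 1) / ξ h) • h) (V.smul_mem _ hh)
    rw [map_smul, smul_eq_mul, div_mul_cancel₀ _ hne] at h3
    linarith
  refine ⟨ξ, ?_, hξV⟩
  intro h0
  have h3 := h2 0 V.zero_mem
  rw [map_zero] at h3
  have h4 : ξ f = 0 := by
    have : ev (show BB X from ξ) f = 0 := by
      rw [show (show BB X from ξ) = 0 from h0]; exact ev_zero f
    exact this
  rw [h4] at h1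
  linarith

end Bidual

end Pool.Agent.MP_bec4cd_an
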