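import Mathlib

set_option autoImplicit false

/-!
A Cantor scheme lemma: if an open symmetric relation has related pairs in a set locally near
every point, then there is a continuous image of the Cantor space whose distinct parameters are
related.
-/

namespace Pool.Agent.MP_bec4cd_an

open Filter Topology CantorScheme PiNat

theorem exists_cantor {α : Type*} [MetricSpace α] [CompleteSpace α] (F : Set α)
    (R : α → α → Prop) (W : Set α) (hW : IsOpen W) (hne : (W ∩ F).Nonempty)
    (hR : ∀ p q, R p q → ∃ δ : ℝ, 0 < δ ∧ ∀ p' q', dist p' p < δ → dist q' q < δ → R p' q')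
    (hsym : ∀ p q, R p q → R q p)
    (H : ∀ V : Set α, V ⊆ W → IsOpen V → (V ∩ F).Nonempty → ∃ p ∈ V ∩ F, ∃ q ∈ V ∩ F, R p q) :
    ∃ φ : (ℕ → Bool) → α, Continuous φ ∧ ∀ s t, s ≠ t → R (φ s) (φ t) := by
  let P := {E : Set α // IsOpen E ∧ (E ∩ F).Nonempty ∧ E ⊆ W}
  have hsplit : ∀ (E : P) (n : ℕ), ∃ C0 C1 : P, closure C0.1 ⊆ E.1 ∧ closure C1.1 ⊆ E.1 ∧
      Metric.ediam C0.1 ≤ ENNReal.ofReal ((1 / 2) ^ n) ∧
      Metric.ediam C1.1 ≤ ENNReal.ofReal ((1 / 2) ^ n) ∧
      ∀ p ∈ C0.1, ∀ q ∈ C1.1, R p q := by
    intro E n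
    obtain ⟨p, hp, q, hq, hpq⟩ := H E.1 E.2.2.2 E.2.1 E.2.2.1
    obtain ⟨δ, hδ, hδR⟩ := hR p q hpq
    obtain ⟨rp, hrp, hrp'⟩ := Metric.isOpen_iff.mp E.2.1 p hp.1
    obtain ⟨rq, hrq, hrq'⟩ := Metric.isOpen_iff.mp E.2.1 q hq.1
    set e : ℝ := min (min δ (min rp rq)) ((1 / 2) ^ n) / 2 with he
    have hmin : 0 < min (min δ (min rp rq)) ((1 / 2) ^ n) :=
      lt_min (lt_min hδ (lt_min hrp hrq)) (by positivity)
    have he0 : 0 < e := by positivity
    have heδ : e < δ := by
      have : min (min δ (min rp rq)) ((1 / 2) ^ n) ≤ δ :=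
        (min_le_left _ _).trans (min_le_left _ _)
      linarith
    have herp : e < rp := by
      have : min (min δ (min rp rq)) ((1 / 2) ^ n) ≤ rp :=
        (min_le_left _ _).trans ((min_le_right _ _).trans (min_le_left _ _))
      linarith
    have herq : e < rq := by
      have : min (min δ (min rp rq)) ((1 / 2) ^ n) ≤ rq :=
        (min_le_left _ _).trans ((min_le_right _ _).trans (min_le_right _ _))
      linarith
    have hen : e + e ≤ (1 / 2) ^ n := by
      have : min (min δ (min rp rq)) ((1 / 2) ^ n) ≤ (1 / 2) ^ n := min_le_right _ _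
      linarith
    have hclp : closure (Metric.ball p e) ⊆ E.1 := by
      refine Metric.closure_ball_subset_closedBall.trans ?_
      refine (Metric.closedBall_subset_ball herp).trans hrp'
    have hclq : closure (Metric.ball q e) ⊆ E.1 := by
      refine Metric.closure_ball_subset_closedBall.trans ?_
      refine (Metric.closedBall_subset_ball herq).trans hrq'
    have hdiam : ∀ c : α, Metric.ediam (Metric.ball c e) ≤ ENNReal.ofReal ((1 / 2) ^ n) := by
      intro c
      refine Metric.ediam_le fun x hx y hy => ?_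
      rw [edist_dist]
      refine ENNReal.ofReal_le_ofReal ?_
      have h1 := dist_triangle_right x y c
      have h2 : dist x c < e := hx
      have h3 : dist y c < e := hy
      linarith
    refine ⟨⟨Metric.ball p e, Metric.isOpen_ball, ⟨p, Metric.mem_ball_self he0, hp.2⟩,
        (subset_closure.trans hclp).trans E.2.2.2⟩,
      ⟨Metric.ball q e, Metric.isOpen_ball, ⟨q, Metric.mem_ball_self he0, hq.2⟩,
        (subset_closure.trans hclq).trans E.2.2.2⟩, hclp, hclq, hdiam p, hdiam q, ?_⟩
    intro p' hp' q' hq'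
    exact hδR p' q' (lt_trans hp' heδ) (lt_trans hq' heδ)
  choose C0 C1 hC0 hC1 hd0 hd1 hRR using hsplit
  let DP : List Bool → P := fun l =>
    List.rec (motive := fun _ => P) ⟨W, hW, hne, subset_rfl⟩
      (fun a l ih => bif a then C1 ih l.length else C0 ih l.length) l
  let D : List Bool → Set α := fun l => (DP l).1
  have hanti : ClosureAntitone D := by
    intro l a
    cases a
    · exact hC0 _ _
    · exact hC1 _ _
  have hdiam : VanishingDiam D := by
    intro x
    have hu : Tendsto (fun n : ℕ => ENNReal.ofReal ((1 / 2 : ℝ) ^ n)) atTop (𝓝 0) := by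
      have h1 : Tendsto (fun n : ℕ => (1 / 2 : ℝ) ^ n) atTop (𝓝 0) :=
        tendsto_pow_atTop_nhds_zero_of_lt_one (by norm_num) (by norm_num)
      have h2 := ENNReal.tendsto_ofReal h1
      rwa [ENNReal.ofReal_zero] at h2
    rw [← tendsto_add_atTop_iff_nat 1]
    refine tendsto_of_tendsto_of_tendsto_of_le_of_le tendsto_const_nhds hu (fun n => zero_le) ?_
    intro n
    show Metric.ediam (D (res x (n + 1))) ≤ ENNReal.ofReal ((1 / 2 : ℝ) ^ n)
    rw [res_succ]
    have hlen : (res x n).length = n := res_length x n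
    cases hx : x n
    · have := hd0 (DP (res x n)) (res x n).length
      rw [hlen] at this
      show Metric.ediam (C0 (DP (res x n)) (res x n).length).1 ≤ _
      rw [hlen]
      exact this
    · have := hd1 (DP (res x n)) (res x n).length
      rw [hlen] at this
      show Metric.ediam (C1 (DP (res x n)) (res x n).length).1 ≤ _
      rw [hlen]
      exact this
  have hdom : ∀ {x : ℕ → Bool}, x ∈ (inducedMap D).1 := fun {x} => by
    rw [hanti.map_of_vanishingDiam hdiam fun l => (DP l).2.2.1.mono Set.inter_subset_left]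
    exact Set.mem_univ _
  refine ⟨fun x => (inducedMap D).2 ⟨x, hdom⟩, ?_, ?_⟩
  · apply hdiam.map_continuous.comp
    fun_prop
  · intro x y hxy
    set n := firstDiff x y with hn
    have h1 : x n ≠ y n := apply_firstDiff_ne hxy
    have h2 : res x n = res y n := by
      rw [res_eq_res]
      intro m hm
      exact apply_eq_of_lt_firstDiff hm
    have hx := map_mem (A := D) ⟨x, hdom⟩ (n + 1)
    have hy := map_mem (A := D) ⟨y, hdom⟩ (n + 1)
    simp only [res_succ] at hx hy
    rw [← h2] at hy
    cases hxn : x n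
    · have hyn : y n = true := by
        cases hyn : y n
        · exact absurd (hxn.trans hyn.symm) h1
        · rfl
      rw [hxn] at hx
      rw [hyn] at hy
      exact hRR (DP (res x n)) (res x n).length _ hx _ hy
    · have hyn : y n = false := by
        cases hyn : y n
        · rfl
        · exact absurd (hxn.trans hyn.symm) h1
      rw [hxn] at hx
      rw [hyn] at hy
      exact hsym _ _ (hRR (DP (res x n)) (res x n).length _ hy _ hx)

end Pool.Agent.MP_bec4cd_an
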