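import Pool.Agent.Lib.MP_bec4cd_an.Key
import Pool.Agent.Lib.MP_bec4cd_an.Cantor

set_option autoImplicit false

/-!
Assembly: a separable Banach space with nonseparable dual has a Cantor set of norm-one points
with uniformly separated support functionals.
-/

namespace Pool.Agent.MP_bec4cd_an

section Final

variable {X : Type*} [NormedAddCommGroup X] [NormedSpace ℝ X]

theorem exists_good_open [Nontrivial X] [CompleteSpace X] {S : Set (X →L[ℝ] ℝ)} (hS : Stable S)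
    (h01 : ((0 : X), (1 : ℝ)) ∈ FF S) :
    ∃ ε : ℝ, 0 < ε ∧ ∃ W : Set (X × ℝ), IsOpen W ∧ (W ∩ FF S).Nonempty ∧
      ∀ V : Set (X × ℝ), V ⊆ W → IsOpen V → (V ∩ FF S).Nonempty →
        ∃ p ∈ V ∩ FF S, ∃ q ∈ V ∩ FF S, NN ε p.1 q.1 := by
  by_contra hcon
  have hneg : ∀ ε : ℝ, 0 < ε → ∀ W : Set (X × ℝ), IsOpen W → (W ∩ FF S).Nonempty →
      ∃ V : Set (X × ℝ), V ⊆ W ∧ IsOpen V ∧ (V ∩ FF S).Nonempty ∧
        ∀ p ∈ V ∩ FF S, ∀ q ∈ V ∩ FF S, ¬ NN ε p.1 q.1 := by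
    intro ε hε W hW hWne
    by_contra hV
    apply hcon
    refine ⟨ε, hε, W, hW, hWne, fun V hVW hVo hVne => ?_⟩
    by_contra hpq
    apply hV
    refine ⟨V, hVW, hVo, hVne, fun p hp q hq hN => ?_⟩
    exact hpq ⟨p, hp, q, hq, hN⟩
  obtain ⟨V1, hV1W, hV1o, ⟨q1, hq1V, hq1F⟩, hV1N⟩ := hneg (1 / 16) (by norm_num)
    {q : X × ℝ | 3 / 4 < q.2} (isOpen_lt continuous_const continuous_snd)
    ⟨(0, 1), by show (3 / 4 : ℝ) < 1; norm_num, h01⟩
  obtain ⟨r1, hr1, hball1⟩ := Metric.isOpen_iff.mp hV1o q1 hq1V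
  set k : ℝ := min (r1 / 4) (1 / 4) with hk
  have hk0 : 0 < k := lt_min (by positivity) (by norm_num)
  have hk1 : k ≤ 1 / 4 := min_le_right _ _
  have hkr : 4 * k ≤ r1 := by
    have : k ≤ r1 / 4 := min_le_left _ _
    linarith
  obtain ⟨V2, hV2W, hV2o, ⟨q2, hq2V, hq2F⟩, hV2N⟩ := hneg (k / 160) (by positivity)
    (Metric.ball q1 k ∩ V1) (Metric.isOpen_ball.inter hV1o)
    ⟨q1, ⟨Metric.mem_ball_self hk0, hq1V⟩, hq1F⟩
  obtain ⟨r2, hr2, hball2⟩ := Metric.isOpen_iff.mp hV2o q2 hq2V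
  have hd : dist q2 q1 < k := (hV2W hq2V).1
  rw [Prod.dist_eq, max_lt_iff, dist_eq_norm, Real.dist_eq] at hd
  have hd2 := (abs_lt.mp hd.2).1
  have hq2g : (3 / 4 : ℝ) < q2.2 := hV1W (hV2W hq2V).2
  refine two_levels hS (x1 := q1.1) (g1 := q1.2) hk0 hk1 ?_ (x := q2.1) (g2 := q2.2) (r2 := r2)
    hr2 hq2F hd.1 (by linarith) hq2g ?_
  · intro p hp q hq hpd hqd
    exact hV1N p ⟨hball1 (lt_of_lt_of_le hpd hkr), hp⟩ q ⟨hball1 (lt_of_lt_of_le hqd hkr), hq⟩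
  · intro p hp q hq hpd hqd
    exact hV2N p ⟨hball2 hpd, hp⟩ q ⟨hball2 hqd, hq⟩

omit [NormedSpace ℝ X] in
theorem NN_symm {ε : ℝ} {x y : X} (h : NN ε x y) : NN ε y x := by
  unfold NN at h ⊢
  rw [norm_sub_rev y x, add_comm y x]
  linarith

omit [NormedSpace ℝ X] in
theorem NN_open {ε : ℝ} {p q : X × ℝ} (h : NN ε p.1 q.1) :
    ∃ δ : ℝ, 0 < δ ∧ ∀ p' q' : X × ℝ, dist p' p < δ → dist q' q < δ → NN ε p'.1 q'.1 := by
  have hopen : IsOpen {z : (X × ℝ) × (X × ℝ) | NN ε z.1.1 z.2.1} := by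
    unfold NN
    exact isOpen_lt (by fun_prop) (by fun_prop)
  obtain ⟨δ, hδ, hball⟩ := Metric.isOpen_iff.mp hopen (p, q) h
  refine ⟨δ, hδ, fun p' q' hp hq => ?_⟩
  have : ((p', q') : (X × ℝ) × (X × ℝ)) ∈ Metric.ball (p, q) δ := by
    rw [Metric.mem_ball, Prod.dist_eq, max_lt_iff]
    exact ⟨hp, hq⟩
  exact hball this

omit [NormedSpace ℝ X] in
theorem NN_ne_zero {ε : ℝ} (hε : 0 < ε) {x y : X} (h : NN ε x y) : x ≠ 0 := by
  rintro rfl
  unfold NN at h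
  rw [norm_zero, zero_add, zero_add, sub_self] at h
  have : 0 ≤ ε * ‖(0 : X) - y‖ := by positivity
  linarith

/-- Support functionals at the two points of a good pair are separated. -/
theorem NN_separated {ε : ℝ} {x y : X} (h : NN ε x y) {f g : X →L[ℝ] ℝ}
    (hf : ‖f‖ ≤ 1) (hg : ‖g‖ ≤ 1) (hfx : f x = ‖x‖) (hgy : g y = ‖y‖) : 2 * ε < ‖f - g‖ := by
  unfold NN at h
  have h1 : (f + g) (x + y) ≤ 2 * ‖x + y‖ := by
    have e1 := ContinuousLinearMap.le_opNorm (f + g) (x + y)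
    rw [Real.norm_eq_abs] at e1
    have e2 := le_abs_self ((f + g) (x + y))
    have e3 : ‖f + g‖ ≤ 2 := (norm_add_le f g).trans (by linarith)
    have e4 := mul_le_mul_of_nonneg_right e3 (norm_nonneg (x + y))
    linarith
  have h2 : (f - g) (x - y) ≤ ‖f - g‖ * ‖x - y‖ := by
    have e1 := ContinuousLinearMap.le_opNorm (f - g) (x - y)
    rw [Real.norm_eq_abs] at e1
    exact (le_abs_self _).trans e1
  have h3 : (f + g) (x + y) + (f - g) (x - y) = 2 * ‖x‖ + 2 * ‖y‖ := by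
    have e1 : (f + g) (x + y) = f x + f y + (g x + g y) := by
      rw [show (f + g) (x + y) = f (x + y) + g (x + y) from rfl, map_add, map_add]
    have e2 : (f - g) (x - y) = f x - f y - (g x - g y) := by
      rw [show (f - g) (x - y) = f (x - y) - g (x - y) from rfl, map_sub, map_sub]
    rw [e1, e2, ← hfx, ← hgy]
    ring
  have h4 : (2 * ε) * ‖x - y‖ < ‖f - g‖ * ‖x - y‖ := by linarith
  exact lt_of_mul_lt_mul_right h4 (norm_nonneg _)

/-- The main theorem. -/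
theorem cantor_of_nonseparable_dual [CompleteSpace X] [TopologicalSpace.SeparableSpace X]
    (hX : ¬ TopologicalSpace.SeparableSpace (X →L[ℝ] ℝ)) :
    ∃ K : Set X, K ⊆ Metric.sphere (0 : X) 1 ∧ Nonempty (K ≃ₜ (ℕ → Bool)) ∧
      ∃ ε : ℝ, 0 < ε ∧
        ∀ x ∈ K, ∀ y ∈ K, x ≠ y →
          ∀ f g : X →L[ℝ] ℝ, ‖f‖ = 1 → f x = 1 → ‖g‖ = 1 → g y = 1 → ε ≤ ‖f - g‖ := by
  have hnt : Nontrivial X := by
    by_contra hcon
    rw [not_nontrivial_iff_subsingleton] at hcon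
    apply hX
    have : Subsingleton (X →L[ℝ] ℝ) := ⟨fun f g => by
      ext x
      rw [Subsingleton.elim x 0, map_zero, map_zero]⟩
    have : Countable (X →L[ℝ] ℝ) := inferInstance
    infer_instance
  obtain ⟨S, hSc, hS⟩ := exists_stable (X := X)
  obtain ⟨ε, hε, W, hW, hWne, hWV⟩ := exists_good_open hS (zero_one_mem_FF hX hSc)
  obtain ⟨φ, hφc, hφ⟩ := exists_cantor (FF S) (fun p q : X × ℝ => NN ε p.1 q.1) W hW hWne
    (fun p q h => NN_open h) (fun p q h => NN_symm h) hWV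
  -- the points are nonzero
  have hne0 : ∀ t, (φ t).1 ≠ 0 := by
    intro t
    obtain ⟨s, hs⟩ : ∃ s : ℕ → Bool, t ≠ s := by
      refine ⟨fun n => !(t n), fun h => ?_⟩
      have := congrFun h 0
      simp at this
    exact NN_ne_zero hε (hφ t s hs)
  set w : (ℕ → Bool) → X := fun t => ‖(φ t).1‖⁻¹ • (φ t).1 with hw
  have hφ1 : Continuous fun t => (φ t).1 := continuous_fst.comp hφc
  have hwc : Continuous w := by
    refine Continuous.smul ?_ hφ1
    exact (hφ1.norm).inv₀ fun t => norm_ne_zero_iff.mpr (hne0 t)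
  have hwn : ∀ t, ‖w t‖ = 1 := fun t => by
    have : ‖(φ t).1‖ ≠ 0 := norm_ne_zero_iff.mpr (hne0 t)
    simp only [hw]
    rw [norm_smul, norm_inv, norm_norm, inv_mul_cancel₀ this]
  have hsep : ∀ s t, s ≠ t → ∀ f g : X →L[ℝ] ℝ, ‖f‖ = 1 → f (w s) = 1 → ‖g‖ = 1 →
      g (w t) = 1 → 2 * ε < ‖f - g‖ := by
    intro s t hst f g hf hfs hg hgt
    have key : ∀ (h : X →L[ℝ] ℝ) (r : ℕ → Bool), h (w r) = 1 → h (φ r).1 = ‖(φ r).1‖ := by
      intro h r hr
      have : ‖(φ r).1‖ ≠ 0 := norm_ne_zero_iff.mpr (hne0 r)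
      simp only [hw] at hr
      rw [map_smul, smul_eq_mul] at hr
      field_simp at hr
      exact hr
    exact NN_separated (hφ s t hst) hf.le hg.le (key f s hfs) (key g t hgt)
  have hinj : Function.Injective w := by
    intro s t hst
    by_contra hne
    obtain ⟨f, hf, hfs⟩ := exists_dual_vector ℝ (w s) (by rw [hwn s]; exact one_ne_zero)
    rw [hwn s] at hfs
    have hfs' : f (w s) = 1 := by simpa using hfs
    have h1 := hsep s t hne f f hf hfs' hf (by rw [← hst]; exact hfs')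
    rw [sub_self, norm_zero] at h1
    linarith
  refine ⟨Set.range w, ?_, ?_, 2 * ε, by positivity, ?_⟩
  · rintro _ ⟨t, rfl⟩
    rw [mem_sphere_zero_iff_norm]
    exact hwn t
  · have hemb : Topology.IsClosedEmbedding w := hwc.isClosedEmbedding hinj
    exact ⟨hemb.isEmbedding.toHomeomorph.symm⟩
  · rintro _ ⟨s, rfl⟩ _ ⟨t, rfl⟩ hne f g hf hfs hg hgt
    have hst : s ≠ t := fun h => hne (by rw [h])
    exact (hsep s t hst f g hf hfs hg hgt).le

end Final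

end Pool.Agent.MP_bec4cd_an
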