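import Pool.Agent.Lib.MP_bec4cd_an.Bidual

set_option autoImplicit false

/-!
The growth function `PP S x l`: the supremum of the bidual norms of `x + l ξ`, where `ξ` runs
over the elements of the unit ball of the bidual which vanish on `S`.
-/

namespace Pool.Agent.MP_bec4cd_an

section Growth

variable {X : Type*} [NormedAddCommGroup X] [NormedSpace ℝ X]

/-- The elements of the unit ball of the bidual vanishing on `S`. -/
def DD (S : Set (X →L[ℝ] ℝ)) : Set (BB X) := {ξ | ‖ξ‖ ≤ 1 ∧ ∀ h ∈ S, ev ξ h = 0}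

/-- The growth function. -/
noncomputable def PP (S : Set (X →L[ℝ] ℝ)) (x : X) (l : ℝ) : ℝ :=
  sSup ((fun ξ : BB X => ‖JJ x + l • ξ‖) '' DD S)

theorem zero_mem_DD (S : Set (X →L[ℝ] ℝ)) : (0 : BB X) ∈ DD S :=
  ⟨by rw [norm_zero]; exact zero_le_one, fun _ _ => ev_zero _⟩

theorem DD_anti {S T : Set (X →L[ℝ] ℝ)} (h : S ⊆ T) : DD T ⊆ DD S :=
  fun _ hξ => ⟨hξ.1, fun g hg => hξ.2 g (h hg)⟩

theorem norm_le_bound {S : Set (X →L[ℝ] ℝ)} {ξ : BB X} (hξ : ξ ∈ DD S) (x : X) (l : ℝ) :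
    ‖JJ x + l • ξ‖ ≤ ‖x‖ + |l| := by
  refine (norm_add_le (JJ x) (l • ξ)).trans ?_
  rw [norm_JJ, norm_smul, Real.norm_eq_abs]
  have := mul_le_mul_of_nonneg_left hξ.1 (abs_nonneg l)
  linarith

theorem PP_bdd (S : Set (X →L[ℝ] ℝ)) (x : X) (l : ℝ) :
    BddAbove ((fun ξ : BB X => ‖JJ x + l • ξ‖) '' DD S) := by
  refine ⟨‖x‖ + |l|, ?_⟩
  rintro _ ⟨ξ, hξ, rfl⟩
  exact norm_le_bound hξ x l

theorem PP_nonempty (S : Set (X →L[ℝ] ℝ)) (x : X) (l : ℝ) :
    ((fun ξ : BB X => ‖JJ x + l • ξ‖) '' DD S).Nonempty :=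
  ⟨_, 0, zero_mem_DD S, rfl⟩

theorem le_PP {S : Set (X →L[ℝ] ℝ)} {ξ : BB X} (hξ : ξ ∈ DD S) (x : X) (l : ℝ) :
    ‖JJ x + l • ξ‖ ≤ PP S x l :=
  le_csSup (PP_bdd S x l) ⟨ξ, hξ, rfl⟩

theorem PP_le {S : Set (X →L[ℝ] ℝ)} {x : X} {l c : ℝ}
    (h : ∀ ξ ∈ DD S, ‖JJ x + l • ξ‖ ≤ c) : PP S x l ≤ c := by
  refine csSup_le (PP_nonempty S x l) ?_
  rintro _ ⟨ξ, hξ, rfl⟩
  exact h ξ hξ

theorem exists_lt_PP {S : Set (X →L[ℝ] ℝ)} {x : X} {l r : ℝ} (h : r < PP S x l) :
    ∃ ξ ∈ DD S, r < ‖JJ x + l • ξ‖ := by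
  obtain ⟨_, ⟨ξ, hξ, rfl⟩, h2⟩ := exists_lt_of_lt_csSup (PP_nonempty S x l) h
  exact ⟨ξ, hξ, h2⟩

theorem PP_anti {S T : Set (X →L[ℝ] ℝ)} (h : S ⊆ T) (x : X) (l : ℝ) : PP T x l ≤ PP S x l :=
  PP_le fun _ hξ => le_PP (DD_anti h hξ) x l

theorem norm_le_PP (S : Set (X →L[ℝ] ℝ)) (x : X) (l : ℝ) : ‖x‖ ≤ PP S x l := by
  have := le_PP (zero_mem_DD S) x l
  rwa [smul_zero, add_zero, norm_JJ] at this

theorem PP_le_norm_add (S : Set (X →L[ℝ] ℝ)) (x : X) (l : ℝ) : PP S x l ≤ ‖x‖ + |l| :=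
  PP_le fun _ hξ => norm_le_bound hξ x l

theorem PP_lip (S : Set (X →L[ℝ] ℝ)) (x y : X) (l k : ℝ) :
    PP S x l ≤ PP S y k + (‖x - y‖ + |l - k|) := by
  refine PP_le fun ξ hξ => ?_
  have h1 : JJ x + l • ξ = (JJ y + k • ξ) + (JJ (x - y) + (l - k) • ξ) := by
    rw [map_sub]; module
  rw [h1]
  refine (norm_add_le (JJ y + k • ξ) (JJ (x - y) + (l - k) • ξ)).trans ?_
  have h2 := le_PP hξ y k
  have h3 := norm_le_bound hξ (x - y) (l - k)
  linarith

theorem PP_continuous (S : Set (X →L[ℝ] ℝ)) : Continuous (fun q : X × ℝ => PP S q.1 q.2) := by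
  have : LipschitzWith 2 (fun q : X × ℝ => PP S q.1 q.2) := by
    refine LipschitzWith.of_le_add_mul 2 fun p q => ?_
    have h1 := PP_lip S p.1 q.1 p.2 q.2
    have h2 : ‖p.1 - q.1‖ ≤ dist p q := by
      rw [← dist_eq_norm, Prod.dist_eq]; exact le_max_left _ _
    have h3 : |p.2 - q.2| ≤ dist p q := by
      rw [← Real.dist_eq, Prod.dist_eq]; exact le_max_right _ _
    push_cast
    linarith
  exact this.continuous

/-- Convexity in the scale: growth at a small scale gives growth at every larger scale. -/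
theorem PP_scale {S : Set (X →L[ℝ] ℝ)} {x : X} {s r g : ℝ} (hs : 0 < s) (hsr : s ≤ r)
    (h : ‖x‖ + s * g ≤ PP S x s) : ‖x‖ + r * g ≤ PP S x r := by
  have hr : 0 < r := lt_of_lt_of_le hs hsr
  have h1 : PP S x s ≤ (1 - s / r) * ‖x‖ + (s / r) * PP S x r := by
    refine PP_le fun ξ hξ => ?_
    have e : JJ x + s • ξ = (1 - s / r) • JJ x + (s / r) • (JJ x + r • ξ) := by
      rw [smul_add, ← add_assoc, ← add_smul, smul_smul, div_mul_cancel₀ _ hr.ne']
      simp
    rw [e]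
    refine (norm_add_le ((1 - s / r) • JJ x) ((s / r) • (JJ x + r • ξ))).trans ?_
    have h0 : 0 ≤ s / r := by positivity
    have h0' : 0 ≤ 1 - s / r := by
      rw [sub_nonneg, div_le_one hr]; exact hsr
    rw [norm_smul, norm_smul, norm_JJ, Real.norm_of_nonneg h0, Real.norm_of_nonneg h0']
    have := mul_le_mul_of_nonneg_left (le_PP hξ x r) h0
    linarith
  have h2 : ‖x‖ + s * g ≤ (1 - s / r) * ‖x‖ + (s / r) * PP S x r := h.trans h1
  have h3 : (s / r) * (‖x‖ + r * g) ≤ (s / r) * PP S x r := by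
    have e : (s / r) * (‖x‖ + r * g) = (s / r) * ‖x‖ + s * g := by
      field_simp
    rw [e]
    linarith
  exact le_of_mul_le_mul_left h3 (by positivity)

/-- Stability of a countable set. -/
def Stable (S : Set (X →L[ℝ] ℝ)) : Prop :=
  ∀ (f : X →L[ℝ] ℝ) (x : X) (l : ℝ), PP (insert f S) x l = PP S x l

theorem exists_stable [TopologicalSpace.SeparableSpace X] :
    ∃ S : Set (X →L[ℝ] ℝ), S.Countable ∧ Stable S := by
  classical
  set q : ℕ → X × ℝ := TopologicalSpace.denseSeq (X × ℝ) with hq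
  -- the infimum over countable sets
  set c : ℕ → ℝ := fun j =>
    sInf ((fun T : Set (X →L[ℝ] ℝ) => PP T (q j).1 (q j).2) '' {T | T.Countable}) with hc
  have hbdd : ∀ j, BddBelow
      ((fun T : Set (X →L[ℝ] ℝ) => PP T (q j).1 (q j).2) '' {T | T.Countable}) := by
    intro j
    refine ⟨‖(q j).1‖, ?_⟩
    rintro _ ⟨T, _, rfl⟩
    exact norm_le_PP T _ _
  have hne : ∀ j, ((fun T : Set (X →L[ℝ] ℝ) => PP T (q j).1 (q j).2) ''
      {T | T.Countable}).Nonempty := fun j => ⟨_, ∅, Set.countable_empty, rfl⟩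
  have hchoose : ∀ j n : ℕ, ∃ T : Set (X →L[ℝ] ℝ), T.Countable ∧
      PP T (q j).1 (q j).2 < c j + 1 / ((n : ℝ) + 1) := by
    intro j n
    have h0 : sInf ((fun T : Set (X →L[ℝ] ℝ) => PP T (q j).1 (q j).2) '' {T | T.Countable}) <
        c j + 1 / ((n : ℝ) + 1) := by
      have : (0 : ℝ) < 1 / ((n : ℝ) + 1) := by positivity
      simp only [hc]
      linarith
    obtain ⟨_, ⟨T, hT, rfl⟩, h2⟩ := exists_lt_of_csInf_lt (hne j) h0
    exact ⟨T, hT, h2⟩
  choose T hT1 hT2 using hchoose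
  set S : Set (X →L[ℝ] ℝ) := ⋃ j, ⋃ n, T j n with hS
  have hScount : S.Countable := Set.countable_iUnion fun j => Set.countable_iUnion fun n => hT1 j n
  have hSle : ∀ j, PP S (q j).1 (q j).2 ≤ c j := by
    intro j
    refine le_of_forall_pos_le_add fun ε hε => ?_
    obtain ⟨n, hn⟩ := exists_nat_one_div_lt hε
    have h1 : PP S (q j).1 (q j).2 ≤ PP (T j n) (q j).1 (q j).2 :=
      PP_anti (Set.subset_iUnion_of_subset j (Set.subset_iUnion_of_subset n subset_rfl)) _ _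
    have h2 := hT2 j n
    linarith
  refine ⟨S, hScount, fun f x l => ?_⟩
  have hdense : DenseRange q := TopologicalSpace.denseRange_denseSeq _
  have hfun : (fun p : X × ℝ => PP (insert f S) p.1 p.2) = fun p : X × ℝ => PP S p.1 p.2 := by
    refine hdense.equalizer (PP_continuous _) (PP_continuous _) ?_
    funext j
    simp only [Function.comp]
    refine le_antisymm (PP_anti (Set.subset_insert _ _) _ _) ?_
    refine (hSle j).trans ?_
    exact csInf_le (hbdd j) ⟨insert f S, hScount.insert f, rfl⟩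
  exact congrFun hfun (x, l)

/-- If the dual is nonseparable, every countable set of functionals is annihilated by a norm-one
element of the bidual. -/
theorem exists_annihilator (hX : ¬ TopologicalSpace.SeparableSpace (X →L[ℝ] ℝ))
    {S : Set (X →L[ℝ] ℝ)} (hS : S.Countable) : ∃ ξ ∈ DD S, ‖ξ‖ = 1 := by
  set V : Submodule ℝ (X →L[ℝ] ℝ) := (Submodule.span ℝ S).topologicalClosure with hV
  have hVne : V ≠ ⊤ := by
    intro htop
    apply hX
    have h1 : TopologicalSpace.IsSeparable S := hS.isSeparable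
    have h2 : TopologicalSpace.IsSeparable (Submodule.span ℝ S : Set (X →L[ℝ] ℝ)) := h1.span
    have h3 : TopologicalSpace.IsSeparable (V : Set (X →L[ℝ] ℝ)) := by
      rw [hV, Submodule.topologicalClosure_coe]
      exact h2.closure
    rw [htop, Submodule.top_coe] at h3
    exact TopologicalSpace.isSeparable_univ_iff.mp h3
  obtain ⟨f, hf⟩ : ∃ f, f ∉ V := by
    by_contra hcon
    push Not at hcon
    exact hVne (by ext z; simp [hcon z])
  have hVclosed : IsClosed (V : Set (X →L[ℝ] ℝ)) := by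
    rw [hV]; exact Submodule.isClosed_topologicalClosure _
  obtain ⟨ξ, h0, hξV⟩ := exists_vanish hVclosed hf
  have hpos : 0 < ‖ξ‖ := norm_pos_iff.mpr h0
  have hone : ‖‖ξ‖⁻¹ • ξ‖ = 1 := by
    rw [norm_smul, norm_inv, norm_norm, inv_mul_cancel₀ hpos.ne']
  refine ⟨‖ξ‖⁻¹ • ξ, ⟨hone.le, ?_⟩, hone⟩
  intro h hh
  have : ev ξ h = 0 := hξV h (Submodule.le_topologicalClosure _ (Submodule.subset_span hh))
  rw [ev_smul, this, mul_zero]

/-- The set of pairs (point, growth rate) with growth at all scales. -/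
def FF (S : Set (X →L[ℝ] ℝ)) : Set (X × ℝ) := {q | ∀ r : ℝ, 0 < r → ‖q.1‖ + r * q.2 ≤ PP S q.1 r}

theorem PP_continuous_left (S : Set (X →L[ℝ] ℝ)) (r : ℝ) : Continuous (fun x : X => PP S x r) := by
  have h : LipschitzWith 1 (fun x : X => PP S x r) := by
    refine LipschitzWith.of_le_add_mul 1 fun p q => ?_
    have h1 := PP_lip S p q r r
    rw [sub_self, abs_zero, add_zero, ← dist_eq_norm] at h1
    push_cast
    linarith
  exact h.continuous

theorem FF_isClosed (S : Set (X →L[ℝ] ℝ)) : IsClosed (FF S) := by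
  have h0 : FF S = ⋂ r : ℝ, ⋂ _ : 0 < r, {q : X × ℝ | ‖q.1‖ + r * q.2 ≤ PP S q.1 r} := by
    ext q
    simp only [FF, Set.mem_iInter, Set.mem_ofPred_eq]
  rw [h0]
  refine isClosed_iInter fun r => isClosed_iInter fun _ => ?_
  have h1 : Continuous (fun q : X × ℝ => ‖q.1‖ + r * q.2) := by fun_prop
  have h2 : Continuous (fun q : X × ℝ => PP S q.1 r) := by
    have h : LipschitzWith 1 (fun q : X × ℝ => PP S q.1 r) := by
      refine LipschitzWith.of_le_add_mul 1 fun p q => ?_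
      have h1 := PP_lip S p.1 q.1 r r
      have h2 : ‖p.1 - q.1‖ ≤ dist p q := by
        rw [← dist_eq_norm, Prod.dist_eq]; exact le_max_left _ _
      rw [sub_self, abs_zero, add_zero] at h1
      push_cast
      linarith
    exact h.continuous
  exact isClosed_le h1 h2

theorem FF_mono {S : Set (X →L[ℝ] ℝ)} {x : X} {g g' : ℝ} (h : g' ≤ g) (hx : (x, g) ∈ FF S) :
    (x, g') ∈ FF S := by
  intro r hr
  have := hx r hr
  have h2 := mul_le_mul_of_nonneg_left h hr.le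
  simp only at this ⊢
  linarith

theorem zero_one_mem_FF (hX : ¬ TopologicalSpace.SeparableSpace (X →L[ℝ] ℝ))
    {S : Set (X →L[ℝ] ℝ)} (hS : S.Countable) : ((0 : X), (1 : ℝ)) ∈ FF S := by
  intro r hr
  obtain ⟨ξ, hξ, hn⟩ := exists_annihilator hX hS
  have h1 := le_PP hξ (0 : X) r
  rw [map_zero, zero_add, norm_smul, hn, Real.norm_of_nonneg hr.le] at h1
  simpa using h1

end Growth

end Pool.Agent.MP_bec4cd_an
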