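import Pool.Agent.Lib.MP_bec4cd_an.Growth

set_option autoImplicit false

/-!
Growth at one scale produces a nearby point with almost the same growth at all scales.
-/

namespace Pool.Agent.MP_bec4cd_an

open Filter Topology

section Halving

variable {X : Type*} [NormedAddCommGroup X] [NormedSpace ℝ X]

/-- One halving step. -/
theorem halving [Nontrivial X] {S : Set (X →L[ℝ] ℝ)} {x : X} {l g τ : ℝ} (hl : 0 < l)
    (hτ : 0 < τ) (hτ1 : τ ≤ 1) (h : ‖x‖ + l * g ≤ PP S x l) :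
    ∃ x' : X, ‖x' - x‖ ≤ l ∧ ‖x'‖ + (l / 2) * (g - τ) ≤ PP S x' (l / 2) := by
  set t : ℝ := l * τ / (5 + l) with ht
  have h5 : 0 < 5 + l := by linarith
  have ht0 : 0 < t := by positivity
  have ht5 : (5 + l) * t = l * τ := by
    rw [ht]; field_simp
  have ht1 : t ≤ 1 := by
    have : l * τ ≤ l := mul_le_of_le_one_right hl.le hτ1
    rw [ht, div_le_one h5]
    linarith
  obtain ⟨ξ, hξ, h1⟩ := exists_lt_PP (S := S) (x := x) (l := l) (r := PP S x l - t) (by linarith)
  obtain ⟨f, hf, h2⟩ := exists_norming (JJ x + l • ξ) ht0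
  obtain ⟨y, z, hn, hfu⟩ := exists_approxB ξ (0 : BB X) (ι := Fin 2) (κ := Fin 1)
    ![0, x] ![1, l] ![0, 0] ![f] ht0
  have hn0 := hn 0
  have hn1 := hn 1
  have hf0 := (hfu 0).1
  simp only [Matrix.cons_val_zero, Matrix.cons_val_one, zero_smul, add_zero, one_smul,
    zero_add, map_zero] at hn0 hn1 hf0
  rw [ev_add, ev_JJ, ev_smul] at h2
  have hle := le_PP hξ x l
  have hξ1 := hξ.1
  refine ⟨x + (l / 2) • y, ?_, ?_⟩
  · rw [add_sub_cancel_left, norm_smul, Real.norm_of_nonneg (by positivity)]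
    have : ‖y‖ ≤ 2 := by linarith
    nlinarith
  · have h3 : ‖x + (l / 2) • y‖ ≤ (1 / 2) * ‖x‖ + (1 / 2) * ‖x + l • y‖ := by
      have e : x + (l / 2) • y = (1 / 2 : ℝ) • x + (1 / 2 : ℝ) • (x + l • y) := by
        module
      rw [e]
      refine (norm_add_le _ _).trans ?_
      rw [norm_smul, norm_smul, Real.norm_of_nonneg (by norm_num)]
    have h4 := le_PP hξ (x + (l / 2) • y) (l / 2)
    have h5 := ev_le_norm (JJ (x + (l / 2) • y) + (l / 2) • ξ) hf
    rw [ev_add, ev_JJ, ev_smul, map_add, map_smul, smul_eq_mul] at h5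
    have h6 := (abs_lt.mp hf0).1
    have h7 : (l / 2) * (ev ξ f - t) ≤ (l / 2) * f y :=
      mul_le_mul_of_nonneg_left (by linarith) (by positivity)
    nlinarith

/-- Iterated halving. -/
theorem exists_growth_point [Nontrivial X] [CompleteSpace X] {S : Set (X →L[ℝ] ℝ)} {x : X}
    {l g δ : ℝ} (hl : 0 < l) (hδ : 0 < δ) (hδ1 : δ ≤ 1) (h : ‖x‖ + l * g ≤ PP S x l) :
    ∃ x' : X, ‖x' - x‖ ≤ 2 * l ∧ (x', g - δ) ∈ FF S := by
  set ll : ℕ → ℝ := fun n => l / 2 ^ n with hll
  set gg : ℕ → ℝ := fun n => g - δ * (1 - (1 / 2) ^ n) with hgg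
  have hstep : ∀ n : ℕ, ∀ z : X, ‖z‖ + ll n * gg n ≤ PP S z (ll n) →
      ∃ z' : X, ‖z' - z‖ ≤ ll n ∧ ‖z'‖ + ll (n + 1) * gg (n + 1) ≤ PP S z' (ll (n + 1)) := by
    intro n z hz
    obtain ⟨z', h1, h2⟩ := halving (τ := δ * (1 / 2) ^ (n + 1)) (by positivity) (by positivity)
      (by
        have : ((1 : ℝ) / 2) ^ (n + 1) ≤ 1 := pow_le_one₀ (by norm_num) (by norm_num)
        have h0 : (0 : ℝ) ≤ (1 / 2) ^ (n + 1) := by positivity
        nlinarith) hz
    refine ⟨z', h1, ?_⟩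
    have e1 : ll (n + 1) = ll n / 2 := by
      simp only [hll]; rw [pow_succ]; field_simp
    have e2 : gg (n + 1) = gg n - δ * (1 / 2) ^ (n + 1) := by
      simp only [hgg]; ring
    rw [e1, e2]
    exact h2
  choose F hF1 hF2 using hstep
  let s : ∀ n : ℕ, {z : X // ‖z‖ + ll n * gg n ≤ PP S z (ll n)} := fun n =>
    Nat.rec (motive := fun n => {z : X // ‖z‖ + ll n * gg n ≤ PP S z (ll n)})
      ⟨x, by simpa [hll, hgg] using h⟩ (fun n z => ⟨F n z.1 z.2, hF2 n z.1 z.2⟩) n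
  have hs : ∀ n, ‖(s (n + 1)).1 - (s n).1‖ ≤ ll n := fun n => hF1 n (s n).1 (s n).2
  have hs0 : (s 0).1 = x := rfl
  have hdist : ∀ n, dist (s n).1 (s (n + 1)).1 ≤ (2 * l) / 2 / 2 ^ n := by
    intro n
    rw [dist_comm, dist_eq_norm]
    refine (hs n).trans (le_of_eq ?_)
    simp only [hll]
    ring
  have hc : CauchySeq (fun n => (s n).1) := cauchySeq_of_le_geometric_two hdist
  obtain ⟨a, ha⟩ := cauchySeq_tendsto_of_complete hc
  refine ⟨a, ?_, ?_⟩
  · have := dist_le_of_le_geometric_two_of_tendsto₀ hdist ha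
    rw [dist_comm, dist_eq_norm] at this
    exact this
  · intro r hr
    have hll0 : Tendsto ll atTop (𝓝 0) := by
      have h1 : Tendsto (fun n : ℕ => l * (1 / 2 : ℝ) ^ n) atTop (𝓝 (l * 0)) :=
        (tendsto_pow_atTop_nhds_zero_of_lt_one (by norm_num) (by norm_num)).const_mul l
      rw [mul_zero] at h1
      refine h1.congr fun n => ?_
      simp only [hll]
      rw [one_div, inv_pow]
      ring
    have hev : ∀ᶠ n in atTop, ll n < r := hll0.eventually (gt_mem_nhds hr)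
    have h1 : ∀ᶠ n in atTop, ‖(s n).1‖ + r * (g - δ) ≤ PP S (s n).1 r := by
      filter_upwards [hev] with n hn
      have hpos : 0 < ll n := by simp only [hll]; positivity
      have h2 := PP_scale hpos hn.le (s n).2
      have h3 : g - δ ≤ gg n := by
        simp only [hgg]
        have : (0 : ℝ) ≤ (1 / 2) ^ n := by positivity
        nlinarith
      have h4 := mul_le_mul_of_nonneg_left h3 hr.le
      linarith
    have h2 : Tendsto (fun n => ‖(s n).1‖ + r * (g - δ)) atTop (𝓝 (‖a‖ + r * (g - δ))) :=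
      (ha.norm).add_const _
    have h3 : Tendsto (fun n => PP S (s n).1 r) atTop (𝓝 (PP S a r)) :=
      ((PP_continuous_left S r).tendsto a).comp ha
    exact le_of_tendsto_of_tendsto h2 h3 h1

end Halving

end Pool.Agent.MP_bec4cd_an
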