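import Pool.Agent.Lib.MP_bec4cd_an.Halving

set_option autoImplicit false

/-!
The two-level argument: it is impossible that locally no pairs with the strict triangle
inequality defect exist at two well-chosen nested levels.
-/

namespace Pool.Agent.MP_bec4cd_an

section Key

variable {X : Type*} [NormedAddCommGroup X] [NormedSpace ℝ X]

/-- The defect in the triangle inequality of `x` and `y` exceeds `ε ‖x - y‖`. -/
def NN (ε : ℝ) (x y : X) : Prop := ε * ‖x - y‖ < ‖x‖ + ‖y‖ - ‖x + y‖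

theorem growth_via {S : Set (X →L[ℝ] ℝ)} {a : BB X} (ha : a ∈ DD S) (z : X) (m : ℝ)
    {f : X →L[ℝ] ℝ} (hf : ‖f‖ ≤ 1) : f z + m * ev a f ≤ PP S z m := by
  have h1 := ev_le_norm (JJ z + m • a) hf
  rw [ev_add, ev_JJ, ev_smul] at h1
  exact h1.trans (le_PP ha z m)

theorem apply_le_norm {f : X →L[ℝ] ℝ} (hf : ‖f‖ ≤ 1) (x : X) : f x ≤ ‖x‖ := by
  have h1 := ContinuousLinearMap.le_opNorm f x
  rw [Real.norm_eq_abs] at h1
  have h2 := mul_le_mul_of_nonneg_right hf (norm_nonneg x)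
  have h3 := le_abs_self (f x)
  linarith

theorem ev_le_one {S : Set (X →L[ℝ] ℝ)} {a : BB X} (ha : a ∈ DD S)
    {f : X →L[ℝ] ℝ} (hf : ‖f‖ ≤ 1) : ev a f ≤ 1 :=
  (ev_le_norm a hf).trans ha.1

theorem glue_first [Nontrivial X] [CompleteSpace X] {S : Set (X →L[ℝ] ℝ)} {x : X}
    {g2 r2 ε2 η l τ : ℝ} {a b : BB X} (ha : a ∈ DD S) (hb : b ∈ DD S)
    (hη : 0 < η) (hη1 : η ≤ 1 / 4) (hηr : 4 * η ≤ r2) (hl : 0 < l) (hl1 : l ≤ 1)
    (hlr : 8 * l ≤ r2) (hτ : 0 < τ) (hτη : 100 * τ ≤ η * (η * l)) (hε2 : 0 ≤ ε2)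
    (hF : (x, g2) ∈ FF S)
    (h2 : ∀ p ∈ FF S, ∀ q ∈ FF S, dist p (x, g2) < r2 → dist q (x, g2) < r2 →
      ¬ NN ε2 p.1 q.1)
    {f1 f2 : X →L[ℝ] ℝ} (hf1 : ‖f1‖ ≤ 1) (hf1' : PP S x l - 2 * τ ≤ f1 x + l * ev a f1)
    (hf2 : ‖f2‖ ≤ 1) (hf2' : PP S x l - 2 * τ ≤ f2 x + l * ev b f2) :
    2 * PP S x l - (5 * ε2 + 9 * η) * l ≤ ‖JJ ((2 : ℝ) • x) + l • a + l • b‖ := by
  set P := PP S x l with hP
  have hτ1 : τ ≤ 1 / 100 := by
    have e1 : η * l ≤ 1 := by
      have := mul_le_mul hη1 hl1 hl.le (by norm_num : (0 : ℝ) ≤ 1 / 4)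
      linarith
    have e2 : η * (η * l) ≤ 1 := by
      have := mul_le_mul hη1 e1 (by positivity) (by norm_num : (0 : ℝ) ≤ 1 / 4)
      linarith
    linarith
  obtain ⟨y, z, hn, hfu⟩ := exists_approxB a b (ι := Fin 5) (κ := Fin 2)
    ![0, 0, x, x, (2 : ℝ) • x] ![1, 0, l, 0, l] ![0, 1, 0, l, l] ![f1, f2] hτ
  have hn0 := hn 0
  have hn1 := hn 1
  have hn2 := hn 2
  have hn3 := hn 3
  have hn4 := hn 4
  have hu0 := (hfu 0).1
  have hu1 := (hfu 1).2
  simp only [Matrix.cons_val, zero_smul, add_zero, one_smul, zero_add, map_zero] at hn0 hn1 hn2 hn3 hn4 hu0 hu1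
  have hy : ‖y‖ ≤ 2 := by have := ha.1; linarith
  have hz : ‖z‖ ≤ 2 := by have := hb.1; linarith
  have hPa := le_PP ha x l
  have hPb := le_PP hb x l
  have hPg : ‖x‖ + l * g2 ≤ P := hF l hl
  -- growth at the two points
  have growth : ∀ (c : BB X) (w : X) (f : X →L[ℝ] ℝ), c ∈ DD S → ‖f‖ ≤ 1 →
      P - 2 * τ ≤ f x + l * ev c f → ‖x + l • w‖ < P + τ → |f w - ev c f| < τ →
      ‖x + l • w‖ + (η * l) * (g2 - η) ≤ PP S (x + l • w) (η * l) := by
    intro c w f hc hf hfc hw hfw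
    have h3 := growth_via hc (x + l • w) (η * l) hf
    rw [map_add, map_smul, smul_eq_mul] at h3
    have h4 := (abs_lt.mp hfw).1
    have h5 : l * (ev c f - τ) ≤ l * f w := mul_le_mul_of_nonneg_left (by linarith) hl.le
    have h6 := apply_le_norm hf x
    have h7 : l * g2 - 2 * τ ≤ l * ev c f := by linarith
    have h8 : η * (l * g2 - 2 * τ) ≤ η * (l * ev c f) := mul_le_mul_of_nonneg_left h7 hη.le
    have h9 : l * τ ≤ τ := mul_le_of_le_one_left hτ.le hl1
    have h10 : η * τ ≤ τ := mul_le_of_le_one_left hτ.le (by linarith)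
    nlinarith
  have hga := growth a y f1 ha hf1 hf1' (by linarith) hu0
  have hgb := growth b z f2 hb hf2 hf2' (by linarith) hu1
  obtain ⟨xa, hxa, hFa⟩ := exists_growth_point (l := η * l) (g := g2 - η) (δ := η)
    (by positivity) hη (by linarith) hga
  obtain ⟨xb, hxb, hFb⟩ := exists_growth_point (l := η * l) (g := g2 - η) (δ := η)
    (by positivity) hη (by linarith) hgb
  have hηl : η * l ≤ l / 4 := by nlinarith
  -- closeness
  have close : ∀ (w x' : X), ‖w‖ ≤ 2 → ‖x' - (x + l • w)‖ ≤ 2 * (η * l) →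
      dist ((x', g2 - η - η) : X × ℝ) (x, g2) < r2 := by
    intro w x' hw hx'
    rw [Prod.dist_eq, max_lt_iff]
    constructor
    · rw [dist_eq_norm]
      have e : x' - x = (x' - (x + l • w)) + l • w := by abel
      have h3 : ‖x' - x‖ ≤ ‖x' - (x + l • w)‖ + ‖l • w‖ := by
        rw [e]; exact norm_add_le _ _
      rw [norm_smul, Real.norm_of_nonneg hl.le] at h3
      have h4 : l * ‖w‖ ≤ l * 2 := mul_le_mul_of_nonneg_left hw hl.le
      show ‖x' - x‖ < r2
      linarith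
    · rw [Real.dist_eq]
      show |g2 - η - η - g2| < r2
      rw [show g2 - η - η - g2 = -(2 * η) by ring, abs_neg, abs_of_pos (by linarith)]
      linarith
  have hnn := h2 _ hFa _ hFb (close y xa hy hxa) (close z xb hz hxb)
  unfold NN at hnn
  rw [not_lt] at hnn
  simp only at hnn
  -- lower bounds
  have hla : P - 2 * τ - l * τ - 2 * (η * l) ≤ ‖xa‖ := by
    have h3 := apply_le_norm hf1 (x + l • y)
    rw [map_add, map_smul, smul_eq_mul] at h3
    have h4 := (abs_lt.mp hu0).1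
    have h5 : l * (ev a f1 - τ) ≤ l * f1 y := mul_le_mul_of_nonneg_left (by linarith) hl.le
    have h6 : ‖x + l • y‖ ≤ ‖xa‖ + ‖xa - (x + l • y)‖ := by
      have := norm_sub_le xa (xa - (x + l • y))
      rwa [sub_sub_cancel] at this
    linarith
  have hlb : P - 2 * τ - l * τ - 2 * (η * l) ≤ ‖xb‖ := by
    have h3 := apply_le_norm hf2 (x + l • z)
    rw [map_add, map_smul, smul_eq_mul] at h3
    have h4 := (abs_lt.mp hu1).1
    have h5 : l * (ev b f2 - τ) ≤ l * f2 z := mul_le_mul_of_nonneg_left (by linarith) hl.le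
    have h6 : ‖x + l • z‖ ≤ ‖xb‖ + ‖xb - (x + l • z)‖ := by
      have := norm_sub_le xb (xb - (x + l • z))
      rwa [sub_sub_cancel] at this
    linarith
  -- upper bound for the sum
  have hsum : ‖xa + xb‖ ≤ ‖(2 : ℝ) • x + l • y + l • z‖ + 4 * (η * l) := by
    have e : xa + xb = ((2 : ℝ) • x + l • y + l • z) +
        ((xa - (x + l • y)) + (xb - (x + l • z))) := by module
    rw [e]
    refine (norm_add_le _ _).trans ?_
    have := norm_add_le (xa - (x + l • y)) (xb - (x + l • z))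
    linarith
  have hdiff : ‖xa - xb‖ ≤ 5 * l := by
    have e : xa - xb = l • y - l • z +
        ((xa - (x + l • y)) - (xb - (x + l • z))) := by module
    rw [e]
    refine (norm_add_le _ _).trans ?_
    have h3 := norm_sub_le (xa - (x + l • y)) (xb - (x + l • z))
    have h4 := norm_sub_le (l • y) (l • z)
    rw [norm_smul, norm_smul, Real.norm_of_nonneg hl.le] at h4
    have h5 : l * ‖y‖ ≤ l * 2 := mul_le_mul_of_nonneg_left hy hl.le
    have h6 : l * ‖z‖ ≤ l * 2 := mul_le_mul_of_nonneg_left hz hl.le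
    linarith
  have hdiff2 : ε2 * ‖xa - xb‖ ≤ ε2 * (5 * l) := mul_le_mul_of_nonneg_left hdiff hε2
  have h9 : l * τ ≤ τ := mul_le_of_le_one_left hτ.le hl1
  have h10 : 100 * τ ≤ η * l := by nlinarith
  linarith

/-- The two-level argument. -/
theorem two_levels [Nontrivial X] [CompleteSpace X] {S : Set (X →L[ℝ] ℝ)} (hS : Stable S)
    {x1 : X} {g1 k : ℝ} (hk : 0 < k) (hk1 : k ≤ 1 / 4)
    (h1 : ∀ p ∈ FF S, ∀ q ∈ FF S, dist p (x1, g1) < 4 * k → dist q (x1, g1) < 4 * k →
      ¬ NN (1 / 16) p.1 q.1)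
    {x : X} {g2 r2 : ℝ} (hr2 : 0 < r2) (hF : (x, g2) ∈ FF S) (hx : ‖x - x1‖ < k)
    (hg : g1 - k < g2) (hg2 : 3 / 4 < g2)
    (h2 : ∀ p ∈ FF S, ∀ q ∈ FF S, dist p (x, g2) < r2 → dist q (x, g2) < r2 →
      ¬ NN (k / 160) p.1 q.1) : False := by
  set η : ℝ := min (k / 320) (r2 / 4) with hη
  set l : ℝ := min (k / 4) (r2 / 8) with hl
  have hη0 : 0 < η := lt_min (by positivity) (by positivity)
  have hηk : η ≤ k / 320 := min_le_left _ _
  have hηr : 4 * η ≤ r2 := by
    have : η ≤ r2 / 4 := min_le_right _ _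
    linarith
  have hl0 : 0 < l := lt_min (by positivity) (by positivity)
  have hlk : l ≤ k / 4 := min_le_left _ _
  have hlr : 8 * l ≤ r2 := by
    have : l ≤ r2 / 8 := min_le_right _ _
    linarith
  have hl1 : l ≤ 1 := by linarith
  have hη1 : η ≤ 1 / 4 := by linarith
  have hkl0 : 0 < k * l := by positivity
  set m : ℝ := η * (k * l) with hm
  have hm0 : 0 < m := by positivity
  set τ : ℝ := η * m / 100 with hτ
  have hτ0 : 0 < τ := by positivity
  have hτm : 100 * τ = η * m := by rw [hτ]; ring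
  have hτη : 100 * τ ≤ η * (η * l) := by
    rw [hτm, hm]
    have : k * l ≤ l := mul_le_of_le_one_left hl0.le (by linarith)
    have := mul_le_mul_of_nonneg_left this hη0.le
    exact mul_le_mul_of_nonneg_left this hη0.le
  have hm1 : m ≤ k * l / 1280 := by
    have : η ≤ 1 / 1280 := by linarith
    have := mul_le_mul_of_nonneg_right this hkl0.le
    rw [hm]
    linarith
  have hτ1 : 100 * τ ≤ k * l / 1280 := by
    have : η * m ≤ m := mul_le_of_le_one_left hm0.le (by linarith)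
    linarith
  have hkl1 : k * l ≤ 1 / 4 * l := mul_le_mul_of_nonneg_right hk1 hl0.le
  have hlτ : l * τ ≤ τ := mul_le_of_le_one_left hτ0.le hl1
  have hklτ : k * l * τ ≤ τ := mul_le_of_le_one_left hτ0.le (by linarith)
  have hτ2 : τ ≤ 1 := by linarith
  set P := PP S x l with hP
  have hPg : ‖x‖ + l * g2 ≤ P := hF l hl0
  -- the direction `a`
  obtain ⟨a, ha, ha'⟩ := exists_lt_PP (S := S) (x := x) (l := l) (r := P - τ) (by linarith)
  obtain ⟨f1, hf1, hf1'⟩ := exists_norming (JJ x + l • a) hτ0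
  rw [ev_add, ev_JJ, ev_smul] at hf1'
  -- the direction `b`, vanishing at `f1`
  obtain ⟨b, hb, hb'⟩ := exists_lt_PP (S := insert f1 S) (x := x) (l := l) (r := P - τ)
    (by rw [hS f1 x l]; linarith)
  have hbS : b ∈ DD S := DD_anti (Set.subset_insert _ _) hb
  have hbf1 : ev b f1 = 0 := hb.2 f1 (Set.mem_insert _ _)
  obtain ⟨f2, hf2, hf2'⟩ := exists_norming (JJ x + l • b) hτ0
  rw [ev_add, ev_JJ, ev_smul] at hf2'
  have hglue := glue_first (ε2 := k / 160) ha hbS hη0 hη1 hηr hl0 hl1 hlr hτ0 hτη (by positivity)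
    hF h2 hf1 (by linarith) hf2 (by linarith)
  rw [← hP] at hglue
  have hPa := le_PP ha x l
  have hPb := le_PP hbS x l
  -- a functional good for both directions
  obtain ⟨f, hf, hf'⟩ := exists_norming (JJ ((2 : ℝ) • x) + l • a + l • b) hτ0
  have hf2x : f ((2 : ℝ) • x) = 2 * f x := by rw [map_smul, smul_eq_mul]
  rw [ev_add, ev_add, ev_JJ, ev_smul, ev_smul, hf2x] at hf'
  have hfa : f x + l * ev a f ≤ P := by
    have h3 := ev_le_norm (JJ x + l • a) hf
    rw [ev_add, ev_JJ, ev_smul] at h3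
    linarith
  have hfb : f x + l * ev b f ≤ P := by
    have h3 := ev_le_norm (JJ x + l • b) hf
    rw [ev_add, ev_JJ, ev_smul] at h3
    linarith
  have hηl : η * l ≤ k / 320 * l := mul_le_mul_of_nonneg_right hηk hl0.le
  have hA : P - k / 16 * l ≤ f x + l * ev a f := by linarith
  have hB' : P - k / 16 * l ≤ f x + l * ev b f := by linarith
  have hfx := apply_le_norm hf x
  have hB : l * (3 / 4 - k / 16) ≤ l * ev b f := by
    have : l * (3 / 4) ≤ l * g2 := mul_le_mul_of_nonneg_left hg2.le hl0.le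
    linarith
  have hBk : k * (l * (3 / 4 - k / 16)) ≤ k * (l * ev b f) := mul_le_mul_of_nonneg_left hB hk.le
  -- the two bidual points
  set zp : BB X := JJ x + l • a + (k * l) • b with hzp
  set zm : BB X := JJ x + l • a + (-(k * l)) • b with hzm
  have hzpn : P - k / 16 * l + k * l * (3 / 4 - k / 16) ≤ ‖zp‖ := by
    have h3 := ev_le_norm zp hf
    rw [hzp, ev_add, ev_add, ev_JJ, ev_smul, ev_smul] at h3
    rw [← hzp] at h3
    linarith
  have hzmn : P - 2 * τ ≤ ‖zm‖ := by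
    have h3 := ev_le_norm zm hf1
    rw [hzm, ev_add, ev_add, ev_JJ, ev_smul, ev_smul, hbf1] at h3
    rw [← hzm] at h3
    linarith
  obtain ⟨fp, hfp, hfp'⟩ := exists_norming zp hτ0
  obtain ⟨fm, hfm, hfm'⟩ := exists_norming zm hτ0
  rw [hzp, ev_add, ev_add, ev_JJ, ev_smul, ev_smul, ← hzp] at hfp'
  rw [hzm, ev_add, ev_add, ev_JJ, ev_smul, ev_smul, ← hzm] at hfm'
  -- approximation in the space
  obtain ⟨y, z, hn, hfu⟩ := exists_approxB a b (ι := Fin 5) (κ := Fin 4)
    ![0, 0, x, x, x] ![1, 0, l, l, l] ![0, 1, 0, k * l, -(k * l)] ![f1, f, fp, fm] hτ0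
  have hn0 := hn 0
  have hn1 := hn 1
  have hn2 := hn 2
  have hn3 := hn 3
  have hn4 := hn 4
  have hu0 := hfu 0
  have hu1 := hfu 1
  have hu2 := hfu 2
  have hu3 := hfu 3
  simp only [Matrix.cons_val, zero_smul, add_zero, one_smul, zero_add, map_zero]
    at hn0 hn1 hn2 hn3 hn4 hu0 hu1 hu2 hu3
  rw [← hzp] at hn3
  rw [← hzm] at hn4
  have hy : ‖y‖ ≤ 2 := by have := ha.1; linarith
  have hz : ‖z‖ ≤ 2 := by have := hb.1; linarith
  -- growth at the two points
  have growth : ∀ (s : ℝ) (ζ : BB X) (w : X) (F : X →L[ℝ] ℝ), |s| ≤ k * l → ‖F‖ ≤ 1 →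
      P - 2 * τ ≤ ‖ζ‖ → ‖ζ‖ - τ < F x + l * ev a F + s * ev b F →
      ‖w‖ < ‖ζ‖ + τ → w = x + l • y + s • z → |F y - ev a F| < τ → |F z - ev b F| < τ →
      ‖w‖ + m * (g2 - k - η) ≤ PP S w m := by
    intro s ζ w F hs hF1 hζ hζF hw hwe hFa hFb
    have h3 := growth_via ha w m hF1
    have h4 := (abs_lt.mp hFa).1
    have h5 : l * (ev a F - τ) ≤ l * F y := mul_le_mul_of_nonneg_left (by linarith) hl0.le
    have h6 : |s * (F z - ev b F)| ≤ k * l * τ := by
      rw [abs_mul]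
      exact mul_le_mul hs hFb.le (abs_nonneg _) hkl0.le
    have h7 := (abs_le.mp h6).1
    have h8 : |s * ev b F| ≤ k * l * 1 := by
      rw [abs_mul]
      refine mul_le_mul hs ?_ (abs_nonneg _) hkl0.le
      have h9 := ev_le b F
      have h10 := mul_le_mul hb.1 hF1 (norm_nonneg _) zero_le_one
      linarith
    have h9 := (abs_le.mp h8).2
    have h10 := apply_le_norm hF1 x
    have h11 : l * g2 - k * l - 3 * τ ≤ l * ev a F := by linarith
    have h12 : η * k * (l * g2 - k * l - 3 * τ) ≤ η * k * (l * ev a F) :=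
      mul_le_mul_of_nonneg_left h11 (by positivity)
    have h13 : η * k * τ ≤ τ := mul_le_of_le_one_left hτ0.le (by
      have := mul_le_mul hη1 hk1 hk.le (by norm_num : (0 : ℝ) ≤ 1 / 4)
      linarith)
    have h14 : F w = F x + l * F y + s * F z := by
      rw [hwe, map_add, map_add, map_smul, map_smul, smul_eq_mul, smul_eq_mul]
    have h15 : m * (g2 - k - η) = η * k * (l * g2 - k * l) - 100 * τ := by
      rw [hτm, hm]; ring
    have h16 : m * ev a F = η * k * (l * ev a F) := by rw [hm]; ring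
    linarith
  have hgp := growth (k * l) zp (x + l • y + (k * l) • z) fp (by rw [abs_of_pos hkl0]) hfp
    (by
      have : k * (k * l) ≤ 1 / 4 * (k * l) := mul_le_mul_of_nonneg_right hk1 hkl0.le
      linarith) hfp' (by linarith) rfl hu2.1 hu2.2
  have hgm := growth (-(k * l)) zm (x + l • y + (-(k * l)) • z) fm
    (by rw [abs_neg, abs_of_pos hkl0]) hfm hzmn hfm' (by linarith) rfl hu3.1 hu3.2
  obtain ⟨wp, hwp, hFp⟩ := exists_growth_point (l := m) (g := g2 - k - η) (δ := η)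
    hm0 hη0 (by linarith) hgp
  obtain ⟨wm, hwm, hFm⟩ := exists_growth_point (l := m) (g := g2 - k - η) (δ := η)
    hm0 hη0 (by linarith) hgm
  have hFp' : (wp, g1 - 2 * k - 2 * η) ∈ FF S := FF_mono (by linarith) hFp
  have hFm' : (wm, g1 - 2 * k - 2 * η) ∈ FF S := FF_mono (by linarith) hFm
  have close : ∀ (s : ℝ) (w : X), |s| ≤ k * l → ‖w - (x + l • y + s • z)‖ ≤ 2 * m →
      dist ((w, g1 - 2 * k - 2 * η) : X × ℝ) (x1, g1) < 4 * k := by
    intro s w hs hw
    rw [Prod.dist_eq, max_lt_iff]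
    constructor
    · rw [dist_eq_norm]
      have e : w - x1 = (w - (x + l • y + s • z)) + l • y + s • z + (x - x1) := by abel
      have h3 : ‖w - x1‖ ≤ ‖w - (x + l • y + s • z)‖ + ‖l • y‖ + ‖s • z‖ + ‖x - x1‖ := by
        rw [e]
        refine (norm_add_le _ _).trans ?_
        refine add_le_add_left ?_ _
        refine (norm_add_le _ _).trans ?_
        refine add_le_add_left ?_ _
        exact norm_add_le _ _
      rw [norm_smul, norm_smul, Real.norm_of_nonneg hl0.le, Real.norm_eq_abs] at h3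
      have h4 : l * ‖y‖ ≤ l * 2 := mul_le_mul_of_nonneg_left hy hl0.le
      have h5 : |s| * ‖z‖ ≤ k * l * 2 := mul_le_mul hs hz (norm_nonneg _) hkl0.le
      show ‖w - x1‖ < 4 * k
      linarith
    · rw [Real.dist_eq]
      show |g1 - 2 * k - 2 * η - g1| < 4 * k
      rw [show g1 - 2 * k - 2 * η - g1 = -(2 * k + 2 * η) by ring, abs_neg,
        abs_of_pos (by linarith)]
      linarith
  have hnn := h1 _ hFp' _ hFm' (close (k * l) wp (by rw [abs_of_pos hkl0]) hwp)
    (close (-(k * l)) wm (by rw [abs_neg, abs_of_pos hkl0]) hwm)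
  unfold NN at hnn
  rw [not_lt] at hnn
  simp only at hnn
  -- lower bounds
  have hlp : P - k / 16 * l + k * l * (3 / 4 - k / 16) - 2 * τ - 2 * m ≤ ‖wp‖ := by
    have h3 := apply_le_norm hf (x + l • y + (k * l) • z)
    rw [map_add, map_add, map_smul, map_smul, smul_eq_mul, smul_eq_mul] at h3
    have h4 := (abs_lt.mp hu1.1).1
    have h4' := (abs_lt.mp hu1.2).1
    have h5 : l * (ev a f - τ) ≤ l * f y := mul_le_mul_of_nonneg_left (by linarith) hl0.le
    have h5' : k * l * (ev b f - τ) ≤ k * l * f z :=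
      mul_le_mul_of_nonneg_left (by linarith) hkl0.le
    have h6 : ‖x + l • y + (k * l) • z‖ ≤ ‖wp‖ + ‖wp - (x + l • y + (k * l) • z)‖ := by
      have := norm_sub_le wp (wp - (x + l • y + (k * l) • z))
      rwa [sub_sub_cancel] at this
    linarith
  have hlm : P - 2 * τ - 2 * τ - 2 * m ≤ ‖wm‖ := by
    have h3 := apply_le_norm hf1 (x + l • y + (-(k * l)) • z)
    rw [map_add, map_add, map_smul, map_smul, smul_eq_mul, smul_eq_mul] at h3
    have h4 := (abs_lt.mp hu0.1).1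
    have h4' := (abs_lt.mp hu0.2).2
    rw [hbf1, sub_zero] at h4'
    have h5 : l * (ev a f1 - τ) ≤ l * f1 y := mul_le_mul_of_nonneg_left (by linarith) hl0.le
    have h5' : k * l * f1 z ≤ k * l * τ :=
      mul_le_mul_of_nonneg_left h4'.le hkl0.le
    have h6 : ‖x + l • y + (-(k * l)) • z‖ ≤ ‖wm‖ + ‖wm - (x + l • y + (-(k * l)) • z)‖ := by
      have := norm_sub_le wm (wm - (x + l • y + (-(k * l)) • z))
      rwa [sub_sub_cancel] at this
    linarith
  -- upper bound for the sum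
  have hsum : ‖wp + wm‖ ≤ 2 * ‖x + l • y‖ + 4 * m := by
    have e : wp + wm = (2 : ℝ) • (x + l • y) +
        ((wp - (x + l • y + (k * l) • z)) + (wm - (x + l • y + (-(k * l)) • z))) := by module
    rw [e]
    refine (norm_add_le _ _).trans ?_
    have := norm_add_le (wp - (x + l • y + (k * l) • z)) (wm - (x + l • y + (-(k * l)) • z))
    rw [norm_smul, Real.norm_of_nonneg (by norm_num : (0 : ℝ) ≤ 2)]
    linarith
  have hdiff : ‖wp - wm‖ ≤ 4 * (k * l) + 4 * m := by
    have e : wp - wm = (2 * (k * l)) • z +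
        ((wp - (x + l • y + (k * l) • z)) - (wm - (x + l • y + (-(k * l)) • z))) := by module
    rw [e]
    refine (norm_add_le _ _).trans ?_
    have h3 := norm_sub_le (wp - (x + l • y + (k * l) • z)) (wm - (x + l • y + (-(k * l)) • z))
    rw [norm_smul, Real.norm_of_nonneg (by positivity)]
    have h5 : 2 * (k * l) * ‖z‖ ≤ 2 * (k * l) * 2 := mul_le_mul_of_nonneg_left hz (by positivity)
    linarith
  have hkk : k * (k * l) ≤ 1 / 4 * (k * l) := mul_le_mul_of_nonneg_right hk1 hkl0.le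
  linarith

end Key

end Pool.Agent.MP_bec4cd_an
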